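import Mathlib

set_option maxHeartbeats 400000

namespace Pool.Agent.H.MP_55ae8f_al

open Set

abbrev F := ZMod 3
abbrev K := GaloisField 3 3
abbrev L := Fin 3 → Fin 3 → K

/-- the bracket -/
noncomputable def br (X Y : L) : L := fun i j =>
  if i = 2 then X 0 0 * Y 1 j + Y 1 0 * X 0 j - (Y 0 0 * X 1 j + X 1 0 * Y 0 j) else 0

/-- the group -/
@[ext] structure G where
  v : L

noncomputable instance : Mul G := ⟨fun X Y => ⟨X.v + Y.v + br X.v Y.v⟩⟩
noncomputable instance : One G := ⟨⟨0⟩⟩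
noncomputable instance : Inv G := ⟨fun X => ⟨-X.v⟩⟩

theorem mul_v (X Y : G) : (X * Y).v = X.v + Y.v + br X.v Y.v := rfl
theorem one_v : (1 : G).v = 0 := rfl
theorem inv_v (X : G) : (X⁻¹).v = -X.v := rfl

noncomputable instance : Group G := Group.ofLeftAxioms
  (fun a b c => by ext i j; by_cases h : i = 2 <;> simp [mul_v, br, h] <;> ring)
  (fun a => by ext i j; simp [mul_v, one_v, br])
  (fun a => by ext i j; simp [mul_v, one_v, inv_v, br])

/-- the underlying set -/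
def eq : G ≃ L := ⟨G.v, G.mk, fun _ => rfl, fun _ => rfl⟩

theorem vi : Function.Injective G.v := eq.injective

theorem cardK : Nat.card K = 27 := GaloisField.card 3 3 (by norm_num)

instance : Finite G := .of_equiv _ eq.symm

/-- pure tensors -/
noncomputable def t (a b : Fin 3 → F) (c : K) : L := fun i j => algebraMap F K (a i * b j) * c

theorem key {a b a' b' : Fin 3 → F} {c c' : K} (h : t a b c = t a' b' c') (h0 : t a b c ≠ 0) :
    ∃ r s k : F, r ≠ 0 ∧ s ≠ 0 ∧ k ≠ 0 ∧ a = r • a' ∧ b = s • b' ∧ c' = algebraMap F K k * c := by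
  obtain ⟨i, hi⟩ := Function.ne_iff.1 h0
  obtain ⟨j, hj⟩ := Function.ne_iff.1 hi
  have e := fun i j => congrFun (congrFun h i) j
  have h1 := (e i j).symm.trans_ne hj
  simp only [t, Pi.zero_apply, ne_eq, mul_eq_zero, map_eq_zero, not_or] at hj h1 e
  obtain ⟨⟨p1, p2⟩, p3⟩ := hj
  obtain ⟨⟨q1, q2⟩, q3⟩ := h1
  have h2 : c' = algebraMap F K (a i * b j / (a' i * b' j)) * c := by
    rw [map_div₀, div_mul_eq_mul_div, e, mul_div_cancel_left₀]
    simp [q1, q2]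
  have h3 : ∀ x y, a x * b y = a' x * b' y * (a i * b j / (a' i * b' j)) := fun x y => by
    apply (algebraMap F K).injective
    apply mul_right_cancel₀ p3
    rw [e, map_mul _ (a' x * b' y), mul_assoc, ← h2]
  refine ⟨a i / a' i, b j / b' j, _, div_ne_zero p1 q1, div_ne_zero p2 q2,
    div_ne_zero (mul_ne_zero p1 p2) (mul_ne_zero q1 q2), ?_, ?_, h2⟩
  · ext x
    apply mul_right_cancel₀ p2
    rw [h3 x j]
    simp only [Pi.smul_apply, smul_eq_mul]
    field_simp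
  · ext x
    apply mul_left_cancel₀ p1
    rw [h3 i x]
    simp only [Pi.smul_apply, smul_eq_mul]
    field_simp

/-- the components -/
def ty (S : Set L) : Prop :=
  (∃ X, (∀ a b c, X ≠ t a b c) ∧ S = range fun c : K => c • X) ∨
  (∃ a c, a ≠ 0 ∧ c ∉ range (algebraMap F K) ∧ S = range fun b => t a b c) ∨
  ∃ b, b ≠ 0 ∧ S = range fun a => t a b 1

theorem sub {M : Type} [AddCommGroup M] (hM : Nat.card M = 27) (f : M → L)
    (h1 : ∀ x y, f (x + y) = f x + f y) (h2 : ∀ x, f x = 0 → x = 0)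
    (h3 : ∀ x y, ∃ z, f z = br (f x) (f y)) :
    (∃ H : Subgroup G, G.v '' H = range f) ∧ Nat.card (range f) = 27 := by
  let g := AddMonoidHom.mk' f h1
  refine ⟨⟨⟨⟨⟨G.v ⁻¹' range f, ?_⟩, ⟨0, g.map_zero⟩⟩, ?_⟩, 
    image_preimage_eq (f := G.v) (range f) eq.surjective⟩, ?_⟩
  · rintro X Y ⟨x, hx⟩ ⟨y, hy⟩
    obtain ⟨z, hz⟩ := h3 x y
    exact ⟨x + y + z, by rw [h1, h1, hz, hx, hy, mul_v]⟩
  · rintro X ⟨x, hx⟩
    exact ⟨-x, (g.map_neg x).trans (congrArg _ hx)⟩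
  · exact (Nat.card_range_of_injective ((injective_iff_map_eq_zero g).2 h2)).trans hM

theorem ty_sub {S : Set L} (h : ty S) :
    (∃ H : Subgroup G, G.v '' H = S) ∧ Nat.card S = 27 := by
  have hM : Nat.card (Fin 3 → F) = 27 := by simp
  rcases h with ⟨X, h, rfl⟩ | ⟨a, c, ha, hc, rfl⟩ | ⟨b, hb, rfl⟩
  · refine sub cardK _ (fun x y => add_smul x y X) (fun x e => ?_) fun x y => ⟨0, ?_⟩
    · exact (smul_eq_zero.1 e).resolve_right fun e => h 0 0 0 (by ext; simp [e, t])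
    · ext i j
      by_cases h : i = 2 <;> simp [br, h]
      ring
  · refine sub hM _ (fun x y => by ext; simp [t, mul_add, add_mul]) (fun x e => ?_)
      fun x y => ⟨0, ?_⟩
    · obtain ⟨i, hi⟩ := Function.ne_iff.1 ha
      ext j
      have := congrFun (congrFun e i) j
      have h0 : c ≠ 0 := fun e => hc ⟨0, by simp [e]⟩
      simpa [t, h0, show a i ≠ 0 from hi] using this
    · ext i j
      by_cases h : i = 2 <;> simp [br, h, t]
      ring
  · refine sub hM _ (fun x y => by ext; simp [t, add_mul]) (fun x e => ?_)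
      fun x y => ⟨fun i => if i = 2 then (b 0 + b 0) * (x 0 * y 1 - y 0 * x 1) else 0, ?_⟩
    · obtain ⟨j, hj⟩ := Function.ne_iff.1 hb
      ext i
      have := congrFun (congrFun e i) j
      simpa [t, show b j ≠ 0 from hj] using this
    · ext i j
      by_cases h : i = 2 <;> simp [br, h, t]
      ring

theorem ex (Y : L) (h : Y ≠ 0) : ∃ S, ty S ∧ Y ∈ S := by
  by_cases h1 : ∀ a b c, Y ≠ t a b c
  · exact ⟨_, .inl ⟨Y, h1, rfl⟩, 1, one_smul _ _⟩
  simp only [not_forall, not_not] at h1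
  obtain ⟨a, b, c, rfl⟩ := h1
  by_cases h2 : c ∈ range (algebraMap F K)
  · obtain ⟨k, rfl⟩ := h2
    refine ⟨_, .inr (.inr ⟨b, fun e => h ?_, rfl⟩), k • a, ?_⟩ <;> ext <;> simp [t, *]
    ring
  · exact ⟨_, .inr (.inl ⟨a, c, fun e => h (by ext; simp [t, e]), h2, rfl⟩), b, rfl⟩

theorem le {S T : Set L} {Y : L} (h : Y ≠ 0) (hS : ty S) (hT : ty T) (h1 : Y ∈ S) (h2 : Y ∈ T) :
    S ⊆ T := by
  have q : ∀ (X : L) (x : K) a b c, x • X = t a b c → x • X ≠ 0 → ∃ a b c, X = t a b c :=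
    fun X x a b c e h => ⟨a, b, x⁻¹ * c, by
      rw [← inv_smul_smul₀ (left_ne_zero_of_smul h) X, e]; ext; simp [t]; ring⟩
  rcases hS with ⟨X, k, rfl⟩ | ⟨a, c, ha, hc, rfl⟩ | ⟨b, hb, rfl⟩ <;>
    rcases hT with ⟨X', k', rfl⟩ | ⟨a', c', ha', hc', rfl⟩ | ⟨b', hb', rfl⟩ <;>
    obtain ⟨x, rfl⟩ := h1 <;> obtain ⟨y, e⟩ := h2
  · rintro _ ⟨z, rfl⟩
    refine ⟨z * x⁻¹ * y, ?_⟩
    simp only at e ⊢
    rw [mul_smul, e, mul_smul, inv_smul_smul₀ (left_ne_zero_of_smul h)]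
  · obtain ⟨a, b, c, e⟩ := q _ _ _ _ _ e.symm h
    exact (k _ _ _ e).elim
  · obtain ⟨a, b, c, e⟩ := q _ _ _ _ _ e.symm h
    exact (k _ _ _ e).elim
  · obtain ⟨a, b, c, e⟩ := q _ _ _ _ _ e (e.trans_ne h)
    exact (k' _ _ _ e).elim
  · obtain ⟨r, s, k, -, -, hk, rfl, -, rfl⟩ := key e.symm h
    rintro _ ⟨z, rfl⟩
    refine ⟨(r / k) • z, ?_⟩
    have := (map_ne_zero (algebraMap F K)).2 hk
    ext
    simp [t]
    field_simp
  · obtain ⟨r, s, k, -, -, -, -, -, rfl⟩ := key e (e.trans_ne h)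
    exact (hc ⟨k, by simp⟩).elim
  · obtain ⟨a, b, c, e⟩ := q _ _ _ _ _ e (e.trans_ne h)
    exact (k' _ _ _ e).elim
  · obtain ⟨r, s, k, -, -, -, -, -, rfl⟩ := key e.symm h
    exact (hc' ⟨k, by simp⟩).elim
  · obtain ⟨r, s, k, -, -, -, -, rfl, -⟩ := key e.symm h
    rintro _ ⟨z, rfl⟩
    exact ⟨s • z, by ext; simp [t]; ring⟩

theorem main : ∃ (P : Finset (Subgroup G)),
    (∀ H ∈ P, H ≠ ⊥ ∧ H ≠ ⊤) ∧
    (∀ g : G, g ≠ 1 → ∃! H : Subgroup G, H ∈ P ∧ g ∈ H) ∧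
    (∀ H ∈ P, ∀ K ∈ P, Nat.card H = Nat.card K) ∧
    (∃ H ∈ P, ∃ x ∈ H, ∃ y ∈ H, x * y ≠ y * x) := by
  have c : ∀ H : Subgroup G, ty (G.v '' H) → Nat.card H = 27 := fun H h => by
    rw [← (ty_sub h).2, Nat.card_image_of_injective vi]
    rfl
  refine ⟨(toFinite {H : Subgroup G | ty (G.v '' H)}).toFinset, ?_, fun g hg => ?_, ?_, ?_⟩ <;>
    simp only [Finite.mem_toFinset, mem_setOf_eq]
  · refine fun H h => ⟨?_, ?_⟩ <;> rintro rfl <;> have := c _ h
    · simp at this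
    · rw [Subgroup.card_top, Nat.card_congr eq] at this
      simp [Nat.card_pi, cardK] at this
  · have h0 : g.v ≠ 0 := fun e => hg (G.ext e)
    obtain ⟨S, h1, h2⟩ := ex g.v h0
    obtain ⟨H, rfl⟩ := (ty_sub h1).1
    refine ⟨H, ⟨h1, (vi.mem_set_image).1 h2⟩, fun T hT => SetLike.coe_injective ?_⟩
    exact vi.image_injective ((le h0 hT.1 h1 ⟨g, hT.2, rfl⟩ h2).antisymm
      (le h0 h1 hT.1 h2 ⟨g, hT.2, rfl⟩))
  · exact fun H h T h' => (c H h).trans (c T h').symm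
  · have h1 : ty (range fun a => t a 1 1) := .inr (.inr ⟨1, one_ne_zero, rfl⟩)
    obtain ⟨H, e⟩ := (ty_sub h1).1
    have m : ∀ a, (⟨t a 1 1⟩ : G) ∈ H := fun a =>
      (vi.mem_set_image).1 (e.ge ⟨a, rfl⟩)
    refine ⟨H, e ▸ h1, _, m (Pi.single 0 1), _, m (Pi.single 1 1), fun h => ?_⟩
    have := congrFun (congrFun (congrArg G.v h) 2) 0
    simp [mul_v, br, t] at this
    have h3 : (3 : K) = 0 := CharP.cast_eq_zero K 3
    exact one_ne_zero (α := K) (by linear_combination this - h3)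

end Pool.Agent.H.MP_55ae8f_al
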